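import Pool.Agent.Helper93.HZ.Spec3

set_option autoImplicit false

open MulAction Pointwise

namespace Pool.Agent.Helper93.HZ

open Ctx

/-! ### general sums -/

section gen

variable {α : Type}

theorem idn_split (S : Set α) (hS : S.Finite) (A : Set α) (F : α → ℝ) :
    ∑ᶠ i ∈ S, F i = (∑ᶠ i ∈ S ∩ A, F i) + ∑ᶠ i ∈ S \ A, F i :=
  (finsum_mem_inter_add_sdiff A hS).symm

theorem idn_anti (S : Set α) (hS : S.Finite) (σ : α → α) (hσ : ∀ x, σ (σ x) = x)
    (hm : ∀ x ∈ S, σ x ∈ S) (F : α → ℝ) (hF : ∀ x ∈ S, F (σ x) = - F x) :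
    ∑ᶠ i ∈ S, F i = 0 := by
  have hb : Set.BijOn σ S S := by
    refine ⟨hm, fun x _ y _ h => ?_, fun y hy => ⟨σ y, hm y hy, hσ y⟩⟩
    have := congrArg σ h
    rwa [hσ, hσ] at this
  have h1 : ∑ᶠ i ∈ S, (- F i) = ∑ᶠ i ∈ S, F i :=
    finsum_mem_eq_of_bijOn σ hb (fun x hx => (hF x hx).symm)
  rw [finsum_mem_neg_distrib _ hS] at h1
  linarith

theorem idn_fib {κ : Type} (S : Set α) (hS : S.Finite) (key : α → κ) (F : α → ℝ)
    (h : ∀ i ∈ S, ∑ᶠ j ∈ S ∩ {j | key j = key i}, F j = 0) : ∑ᶠ i ∈ S, F i = 0 := by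
  classical
  rw [finsum_mem_eq_finite_toFinset_sum _ hS]
  rw [← Finset.sum_fiberwise_of_maps_to (s := hS.toFinset) (t := hS.toFinset.image key) (g := key)
    (fun i hi => Finset.mem_image_of_mem _ hi)]
  apply Finset.sum_eq_zero
  intro k hk
  rw [Finset.mem_image] at hk
  obtain ⟨i, hi, rfl⟩ := hk
  have h1 := h i (hS.mem_toFinset.1 hi)
  have h2 : (S ∩ {j | key j = key i}) = ((hS.toFinset.filter (fun j => key j = key i) : Finset α) : Set α) := by
    ext j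
    simp
  rw [h2, finsum_mem_coe_finset] at h1
  exact h1

theorem idn_shift (S T : Set α) (ι : α → α) (hinj : Set.InjOn ι S) (F : α → ℝ)
    (h1 : ∀ x ∈ S, F (ι x) ≠ 0 → ι x ∈ T) (h2 : ∀ y ∈ T, F y ≠ 0 → ∃ x ∈ S, ι x = y) :
    ∑ᶠ i ∈ S, F (ι i) = ∑ᶠ i ∈ T, F i := by
  rw [← finsum_mem_image hinj]
  apply finsum_mem_inter_support_eq
  ext y
  constructor
  · rintro ⟨⟨x, hx, rfl⟩, hy⟩
    exact ⟨h1 x hx hy, hy⟩
  · rintro ⟨hy, hy0⟩
    obtain ⟨x, hx, hxy⟩ := h2 y hy hy0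
    exact ⟨⟨x, hx, hxy⟩, hy0⟩

end gen

variable {G : Type} [Group G]

theorem idn_fin (X : Ctx G) (hf : FinOrb G X.BN) (S : Set (Band G X)) (hS : S ⊆ X.BN)
    (h : ∀ (g : G) (b : Band G X), b ∈ S → g • b ∈ S → g = 1) : S.Finite := by
  have h1 : ((fun b : Band G X => orbit G b) '' S).Finite := hf.subset (Set.image_mono hS)
  apply Set.Finite.of_finite_image h1
  intro b hb b' hb' he
  have h2 : b' ∈ orbit G b := by
    have : b' ∈ orbit G b' := mem_orbit_self b'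
    simp only at he
    rwa [he]
  obtain ⟨g, hg⟩ := h2
  simp only at hg
  have h3 := h g b hb (by rw [hg]; exact hb')
  rw [h3, one_smul] at hg
  exact hg

/-- swap -/
def idnSw {X : Ctx G} (b : Band G X) : Band G X := ⟨b.x, b.z, b.y, b.w, b.o⟩

/-- shift inwards -/
def idnIn {X : Ctx G} (b : Band G X) : Band G X := ⟨b.x, b.y, b.z, X.P.N b.y b.w, b.o⟩

/-- antisymmetrization -/
def idnAs {X : Ctx G} (f : Band G X → ℝ) (b : Band G X) : ℝ := f b - f (idnSw b)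

theorem idn_sw_sw {X : Ctx G} (b : Band G X) : idnSw (idnSw b) = b := rfl

theorem idn_sw_mem {X : Ctx G} (b : Band G X) (hb : b ∈ X.BN) : idnSw b ∈ X.BN := by
  obtain ⟨h1, h2, h3, h4, h5⟩ := hb
  refine ⟨X.K.tri_swap _ _ _ (X.K.tri_rot _ _ _ (X.K.tri_rot _ _ _ h1)), h2.symm, ?_, ?_, h5.symm⟩
  · show X.P.N b.z b.w ≠ b.w
    rw [← h2]; exact h3
  · show X.P.N b.x b.w ≠ X.P.N b.z b.w
    rw [← h2]; exact h4

theorem idn_as_sw {X : Ctx G} (f : Band G X → ℝ) (b : Band G X) :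
    idnAs f (idnSw b) = - idnAs f b := by
  unfold idnAs
  rw [idn_sw_sw]
  ring

theorem idn_as_supp {X : Ctx G} (f : Band G X → ℝ) (hf : ∀ y ∉ X.BN, f y = 0) (b : Band G X)
    (hb : b ∉ X.BN) : idnAs f b = 0 := by
  unfold idnAs
  rw [hf b hb, hf (idnSw b) (fun h => hb (by have := idn_sw_mem _ h; rwa [idn_sw_sw] at this)), sub_zero]

theorem idn_div {X : Ctx G} {Z : Type} (s t : Band G X → Option Z) (F : Band G X → ℝ) (p : Z)
    (hst : ∀ b ∈ X.BN, t b = s (idnSw b)) (hfin : {b | b ∈ X.BN ∧ s b = some p}.Finite) :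
    divR X.BN s t F p = ∑ᶠ b ∈ {b | b ∈ X.BN ∧ s b = some p}, idnAs F b := by
  have h1 : ∑ᶠ b ∈ {b | b ∈ X.BN ∧ t b = some p}, F b
      = ∑ᶠ b ∈ {b | b ∈ X.BN ∧ s b = some p}, F (idnSw b) := by
    refine finsum_mem_eq_of_bijOn idnSw ?_ ?_
    · refine ⟨fun b hb => ⟨idn_sw_mem b hb.1, by rw [← hst b hb.1]; exact hb.2⟩, fun x _ y _ h => ?_,
        fun y hy => ⟨idnSw y, ⟨idn_sw_mem y hy.1, ?_⟩, rfl⟩⟩
      · have := congrArg idnSw h
        rwa [idn_sw_sw, idn_sw_sw] at this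
      · rw [hst _ (idn_sw_mem y hy.1), idn_sw_sw]
        exact hy.2
    · intro b _
      rw [idn_sw_sw]
  unfold divR
  show (∑ᶠ b ∈ {b | b ∈ X.BN ∧ s b = some p}, F b) - ∑ᶠ b ∈ {b | b ∈ X.BN ∧ t b = some p}, F b = _
  rw [h1, ← finsum_mem_sub_distrib _ _ hfin]
  rfl

/-- sign of an edge -/
noncomputable def idnSg (X : Ctx G) (u w : X.U) : ℝ :=
  haveI := Classical.dec (X.D.arr u w)
  if X.D.arr u w then 1 else -1

theorem idn_sg_symm (X : Ctx G) (u w : X.U) (h : X.D.T.Adj u w) :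
    idnSg X w u = - idnSg X u w := by
  unfold idnSg
  rw [X.D.adj_iff] at h
  rcases h with h | h
  · rw [if_pos h, if_neg (X.D.arr_asymm _ _ h)]
  · rw [if_pos h, if_neg (X.D.arr_asymm _ _ h)]; ring

theorem idn_as_del {X : Ctx G} (f : Band G X → ℝ) (hf : ∀ y ∉ X.BN, f y = 0) (b : Band G X)
    (hb : b ∈ X.BN) :
    idnAs (X.del f) b = idnSg X b.w (X.P.N b.y b.w) * (idnAs f b - idnAs f (idnIn b)) := by
  classical
  have h0 : ∀ c : Band G X, c ∈ X.BN →
      X.del f c = idnSg X c.w (X.P.N c.y c.w) * (f c - f (idnIn c)) := by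
    intro c hc
    unfold Ctx.del idnSg
    rw [if_pos hc]
    by_cases h : (⟨c.x, c.y, c.z, X.P.N c.y c.w, c.o⟩ : Band G X) ∈ X.BN
    · rw [if_pos h]
      rfl
    · rw [if_neg h, show f (idnIn c) = 0 from hf _ h]
  have hb' := idn_sw_mem b hb
  have h2 : X.P.N b.y b.w = X.P.N b.z b.w := hb.2.1
  have h3 : idnIn (idnSw b) = idnSw (idnIn b) := by
    unfold idnIn idnSw
    simp only
    rw [h2]
  have h4 : X.P.N (idnSw b).y (idnSw b).w = X.P.N b.y b.w := h2.symm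
  show X.del f b - X.del f (idnSw b) = _
  rw [h0 b hb, h0 _ hb', h3, h4]
  show _ = _ * ((f b - f (idnSw b)) - (f (idnIn b) - f (idnSw (idnIn b))))
  show _ - idnSg X b.w _ * _ = _
  ring

/-! ### local facts -/

theorem idn_fl (X : Ctx G) (x : X.V) {u w : X.U} (h : X.D.T.Adj u w) :
    X.P.N x u = w ↔ X.P.N x w ≠ u := (X.P.fN x).2 u w h

theorem idn_flM (X : Ctx G) (x : X.V) {u w : X.U} (h : X.D.T.Adj u w) :
    X.P.M x u = w ↔ X.P.M x w ≠ u := (X.P.fM x).2 u w h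

theorem idn_adjN (X : Ctx G) (x : X.V) (u : X.U) (h : X.P.N x u ≠ u) :
    X.D.T.Adj u (X.P.N x u) := by
  rcases (X.P.fN x).1 u with h1 | h1
  · exact absurd h1 h
  · exact h1

theorem idn_adjM (X : Ctx G) (x : X.V) (u : X.U) (h : X.P.M x u ≠ u) :
    X.D.T.Adj u (X.P.M x u) := by
  rcases (X.P.fM x).1 u with h1 | h1
  · exact absurd h1 h
  · exact h1

theorem idn_tri_swap23 (X : Ctx G) {x y z : X.V} (h : X.K.tri x y z) : X.K.tri x z y :=
  X.K.tri_swap _ _ _ (X.K.tri_rot _ _ _ (X.K.tri_rot _ _ _ h))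

/-- a bundle of the facts used below -/
structure IdnF (X : Ctx G) : Prop where
  onI : ∀ x y, X.FC2 x y → ∀ u, OnI (X.P.N x) (X.P.N y) u →
    (X.Hon x y u ∨ X.Dp x y u ∨ X.Dp y x u)
  honD : ∀ x y, X.FC2 x y → ∀ u, X.Hon x y u → ¬ X.Dp x y u
  honS : ∀ x y, X.FC2 x y → ∀ u, X.Hon x y u ↔ X.Hon y x u
  dpT : ∀ x y, X.FC2 x y → ∀ z u, X.K.tri x y z → X.Dp x y u →
    X.P.N y u = X.P.N z u ∧ X.P.N y u ≠ u ∧ X.P.N x u ≠ X.P.N y u
  dpM : ∀ x y, X.FC2 x y → ∀ u, X.Dp x y u → X.P.N x u ≠ X.P.M x u ∧ X.P.N y u = X.P.M x u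
  honL : ∀ x y, X.FC2 x y → ∀ z w, X.K.tri x y z → X.P.N y w = X.P.N z w → X.P.N y w ≠ w →
    X.P.N x w ≠ X.P.N y w → X.Hon x y w → X.Hon x y (X.P.N y w)
  honN : ∀ x y, X.FC2 x y → ∀ u, X.Hon x y u → X.P.N y u ≠ u → u ≠ X.Q.Q y x →
    X.Hon x y (X.P.N y u)
  frell : ∀ x y, ¬ EllV X.D X.K x → ¬ Fr X.K x y → ¬ EllV X.D X.K y
  clu : ∀ v v', ¬ EllV X.D X.K v → v' ∈ cl X.D X.K v →
    ¬ EllV X.D X.K v' ∧ cl X.D X.K v' = cl X.D X.K v ∧
    ((X.P.N v' = X.P.N v ∧ X.P.M v' = X.P.M v) ∨ (X.P.N v' = X.P.M v ∧ X.P.M v' = X.P.N v))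
  tfM : ∀ v v', ¬ EllV X.D X.K v → TF X.D X.K v v' → X.P.N v' = X.P.M v
  ftT : ∀ v, ¬ EllV X.D X.K v → ∀ u w u' w', Ax2 X.P v u w → Ax2 X.P v u' w' →
    FT X.D X.K v u w → FT X.D X.K v u' w'
  clS : ∀ v, ¬ EllV X.D X.K v → ∀ g : G, g • cl X.D X.K v = cl X.D X.K (g • v)
  fin : FinOrb G X.BN

theorem idn_frell (hT : ST_TFD) (X : Ctx G) (x y : X.V) (hx : ¬ EllV X.D X.K x)
    (h : ¬ Fr X.K x y) : ¬ EllV X.D X.K y := by
  rintro ⟨u, hu⟩
  obtain ⟨z, k, hst, hord, hk, _⟩ := (X.P.hyp x hx).2.2.1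
  unfold Fr at h
  push Not at h
  obtain ⟨g, h1, h2, h3⟩ := h
  have h4 : g ∈ Subgroup.zpowers z := by rw [← hst]; exact h1
  obtain ⟨n, hn⟩ := Subgroup.mem_zpowers_iff.1 h4
  have h5 := hu g h2
  have hn0 : n ≠ 0 := by
    rintro rfl
    rw [zpow_zero] at hn
    exact h3 hn.symm
  have h6 : Ell X.D (z ^ n.natAbs) := by
    refine ⟨u, ?_⟩
    rcases Int.natAbs_eq n with hh | hh
    · rw [← zpow_natCast, ← hh, hn]; exact h5
    · have h7 : z ^ n.natAbs = g⁻¹ := by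
        rw [← hn, ← zpow_natCast, ← zpow_neg]
        congr 1
        omega
      rw [h7, inv_smul_eq_iff, h5]
  obtain ⟨u', hu'⟩ := (hT G X.D z).1 n.natAbs (Int.natAbs_pos.2 hn0) h6
  apply hx
  refine ⟨u', fun g' hg' => ?_⟩
  have h8 : g' ∈ Subgroup.zpowers z := by rw [← hst]; exact hg'
  have h9 : Subgroup.zpowers z ≤ stabilizer G u' := by
    rw [Subgroup.zpowers_le]; exact hu'
  exact h9 h8

theorem idn_facts (hC : ST_CLU) (hH : ST_HON) (hT : ST_TFD) (hG : ST_GRS) (X : Ctx G) : IdnF X where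
  onI x y h u hu := ((hH G X x y h).1 u).1 hu
  honD x y h u hu := (hH G X x y h).2.1 u hu
  honS x y h u := (hH G X x y h).2.2.2.1 u
  dpT x y h z u ht hu := (hH G X x y h).2.2.2.2.2.2.2.1 z u ht hu
  dpM x y h u hu := (hH G X x y h).2.2.2.2.2.2.2.2.1 u hu
  honL x y h z w := (hH G X x y h).2.2.2.2.2.2.2.2.2.1 z w
  honN x y h u := (hH G X x y h).2.2.2.2.2.2.2.2.2.2 u
  frell := idn_frell hT X
  clu v v' hv h := by
    have := hC G X.D X.K X.P X.nd v v' hv h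
    exact ⟨this.1, this.2.1, this.2.2.1⟩
  tfM v v' hv h := by
    have := hC G X.D X.K X.P X.nd v v' hv (Relation.ReflTransGen.single h)
    exact (this.2.2.2.1 h).1
  ftT v hv := (hC G X.D X.K X.P X.nd v v hv Relation.ReflTransGen.refl).2.2.2.2.1
  clS v hv := (hC G X.D X.K X.P X.nd v v hv Relation.ReflTransGen.refl).2.2.2.2.2
  fin := (hG G X).finY

theorem idn_fc2 {X : Ctx G} {b : Band G X} (hb : b ∈ X.BN) (hF : Fr X.K b.x b.y) :
    X.FC2 b.x b.y := by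
  obtain ⟨h1, h2, h3, h4, h5⟩ := hb
  exact ⟨X.K.tri_adj _ _ _ h1, hF, fun h => h4 (by rw [h])⟩

theorem idn_fc2' {X : Ctx G} {b : Band G X} (hb : b ∈ X.BN) (hF : Fr X.K b.x b.y) :
    X.FC2 b.y b.x := by
  obtain ⟨h1, h2, h3⟩ := idn_fc2 hb hF
  exact ⟨X.K.symm _ _ h1, h2.symm, h3.symm⟩

/-- on a leg, the far side is not deep at the other vertex -/
theorem idn_excl {X : Ctx G} (F : IdnF X) {b : Band G X} (hb : b ∈ X.BN) (hF : Fr X.K b.x b.y) :
    ¬ X.Dp b.y b.x b.w ∧ ¬ X.Dp b.y b.x (X.P.N b.y b.w) := by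
  have hfc := idn_fc2' hb hF
  obtain ⟨h1, h2, h3, h4, h5⟩ := hb
  have ht : X.K.tri b.y b.x b.z := X.K.tri_swap _ _ _ h1
  constructor
  · intro h
    have := (F.dpT _ _ hfc _ _ ht h).1
    rw [← h2] at this
    exact h4 this
  · intro h
    have h6 := (F.dpT _ _ hfc _ _ ht h).1
    have hadj := idn_adjN X b.y b.w h3
    have h7 : X.P.N b.x (X.P.N b.y b.w) = b.w := by
      by_contra hc
      exact h4 ((idn_fl X b.x hadj).2 hc)
    have h8 : X.P.N b.z (X.P.N b.y b.w) ≠ b.w := (idn_fl X b.z hadj).1 h2.symm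
    rw [h7] at h6
    exact h8 h6.symm

theorem idn_onI {X : Ctx G} {b : Band G X} (hb : b ∈ X.BN) :
    OnI (X.P.N b.x) (X.P.N b.y) b.w := by
  obtain ⟨h1, h2, h3, h4, h5⟩ := hb
  intro h
  exact absurd h h4

theorem idn_deep {X : Ctx G} (F : IdnF X) {b : Band G X} (hb : b ∈ X.BN) (hF : Fr X.K b.x b.y)
    (hn : ¬ X.Hon b.x b.y b.w) : X.Dp b.x b.y b.w := by
  rcases F.onI _ _ (idn_fc2 hb hF) _ (idn_onI hb) with h | h | h
  · exact absurd h hn
  · exact h
  · exact absurd h (idn_excl F hb hF).1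

theorem idn_honL {X : Ctx G} (F : IdnF X) {b : Band G X} (hb : b ∈ X.BN) (hF : Fr X.K b.x b.y)
    (hn : X.Hon b.x b.y b.w) : X.Hon b.x b.y (X.P.N b.y b.w) :=
  F.honL _ _ (idn_fc2 hb hF) _ _ hb.1 hb.2.1 hb.2.2.1 hb.2.2.2.1 hn

theorem idn_tf {X : Ctx G} (F : IdnF X) {b : Band G X} (hb : b ∈ X.BN)
    (hx : ¬ EllV X.D X.K b.x) (hF : ¬ Fr X.K b.x b.y) :
    TF X.D X.K b.x b.y ∧ TF X.D X.K b.y b.x :=
  ⟨⟨X.K.tri_adj _ _ _ hb.1, hx, F.frell _ _ hx hF, hF⟩,
    ⟨X.K.symm _ _ (X.K.tri_adj _ _ _ hb.1), F.frell _ _ hx hF, hx, fun h => hF h.symm⟩⟩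

theorem idn_cleq {X : Ctx G} (F : IdnF X) {b : Band G X} (hb : b ∈ X.BN)
    (hx : ¬ EllV X.D X.K b.x) (hF : ¬ Fr X.K b.x b.y) : cl X.D X.K b.y = cl X.D X.K b.x :=
  (F.clu _ _ hx (Relation.ReflTransGen.single (idn_tf F hb hx hF).1)).2.1

theorem idn_FT_cl {X : Ctx G} {v v' : X.V} (h : cl X.D X.K v' = cl X.D X.K v) {u w : X.U}
    (h' : FT X.D X.K v u w) : FT X.D X.K v' u w := by
  unfold FT at *
  rw [h]
  exact h'

theorem idn_FT_sw {X : Ctx G} {v : X.V} {u w : X.U}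
    (h' : FT X.D X.K v u w) : FT X.D X.K v w u := fun g h1 h2 h3 => h' g h1 h3 h2

/-- moving a band outwards -/
theorem idn_out {X : Ctx G} {b : Band G X} (hb : b ∈ X.BN) (a : X.U)
    (ha : X.P.N b.x b.w = a) (hne : a ≠ b.w)
    (hh : (Fr X.K b.x b.y ∧ X.Hon b.x b.y a) ∨ (Fr X.K b.x b.z ∧ X.Hon b.x b.z a)) :
    (⟨b.x, b.y, b.z, a, b.o⟩ : Band G X) ∈ X.BN ∧ X.P.N b.y a = b.w := by
  obtain ⟨h1, h2, h3, h4, h5⟩ := hb
  have hadj : X.D.T.Adj b.w a := by
    rw [← ha]; exact idn_adjN X b.x b.w (by rw [ha]; exact hne)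
  have hy : X.P.N b.y a = b.w := by
    by_contra hc
    have := (idn_fl X b.y hadj).2 hc
    exact h4 (by rw [ha, this])
  have hz : X.P.N b.z a = b.w := by
    by_contra hc
    have := (idn_fl X b.z hadj).2 hc
    exact h4 (by rw [ha, h2, this])
  have hx : X.P.N b.x a ≠ b.w := (idn_fl X b.x hadj).1 ha
  refine ⟨⟨h1, ?_, ?_, ?_, hh⟩, hy⟩
  · show X.P.N b.y a = X.P.N b.z a
    rw [hy, hz]
  · show X.P.N b.y a ≠ a
    rw [hy]; exact hne.symm
  · show X.P.N b.x a ≠ X.P.N b.y a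
    rw [hy]; exact hx

/-! ### nodes -/

def idnEO (X : Ctx G) (C : Set X.V) (o : Bool) (a c : X.U) : Set (Band G X) :=
  {b | b ∈ X.BN ∧ b.x ∈ C ∧ b.o = o ∧ b.w = a ∧ X.P.N b.y a = c}

def idnHn (X : Ctx G) (a : X.U) : Set (Band G X) := {b | Fr X.K b.x b.y ∧ X.Hon b.x b.y a}

theorem idn_nodeP {X : Ctx G} (F : IdnF X) (v0 : X.V) (hv0 : ¬ EllV X.D X.K v0) (u w : X.U)
    (hFT : FT X.D X.K v0 u w) :
    {b | b ∈ X.BN ∧ X.sP b = some (.inr (cl X.D X.K v0, u, w))} =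
      (idnEO X (cl X.D X.K v0) true u w \ idnHn X u) ∪
        (idnEO X (cl X.D X.K v0) false w u \ idnHn X w) := by
  classical
  ext b
  constructor
  · rintro ⟨hb, hs⟩
    unfold Ctx.sP at hs
    by_cases ho : b.o = true
    · left
      rw [ho, if_pos rfl] at hs
      unfold Ctx.ptN at hs
      split_ifs at hs with h1 h2 h3 h4 h5
      · simp only [Option.some.injEq, reduceCtorEq] at hs
      · simp only [Option.some.injEq, Sum.inr.injEq, Prod.mk.injEq] at hs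
        obtain ⟨e1, e2, e3⟩ := hs
        refine ⟨⟨hb, ?_, ho, e2, by rw [← e2]; exact e3⟩, ?_⟩
        · rw [← e1]; exact Relation.ReflTransGen.refl
        · rintro ⟨h6, h7⟩
          rw [← e2] at h7
          exact h1 ⟨h6, h7, idn_honL F hb h6 h7⟩
      · exfalso
        obtain ⟨h6, h7⟩ := h4
        by_cases hF : Fr X.K b.x b.y
        · exact (idn_excl F hb hF).2 h7
        · exact h2 ⟨F.frell _ _ h6 (fun h => hF h.symm), Or.inl hF⟩
    · right
      rw [Bool.not_eq_true] at ho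
      rw [ho, if_neg (by simp)] at hs
      unfold Ctx.ptN at hs
      split_ifs at hs with h1 h2 h3 h4 h5
      · simp only [Option.some.injEq, reduceCtorEq] at hs
      · simp only [Option.some.injEq, Sum.inr.injEq, Prod.mk.injEq] at hs
        obtain ⟨e1, e2, e3⟩ := hs
        by_cases hF : Fr X.K b.x b.y
        · exfalso
          rcases h2.2 with h6 | h6
          · exact h6 hF.symm
          · exact (idn_excl F hb hF).2 h6
        · have hx : ¬ EllV X.D X.K b.x := F.frell _ _ h2.1 (fun h => hF h.symm)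
          refine ⟨⟨hb, ?_, ho, e3, by rw [← e3]; exact e2⟩, fun h => hF h.1⟩
          rw [← e1, idn_cleq F hb hx hF]
          exact Relation.ReflTransGen.refl
      · simp only [Option.some.injEq, Sum.inr.injEq, Prod.mk.injEq] at hs
        obtain ⟨e1, e2, e3⟩ := hs
        refine ⟨⟨hb, ?_, ho, e3, by rw [← e3]; exact e2⟩, ?_⟩
        · rw [← e1]; exact Relation.ReflTransGen.refl
        · rintro ⟨h6, h7⟩
          rw [← e3] at h7
          exact F.honD _ _ (idn_fc2 hb h6) _ h7 h4.2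
  · rintro (⟨⟨hb, hx, ho, hw, hy⟩, hn⟩ | ⟨⟨hb, hx, ho, hw, hy⟩, hn⟩)
    · refine ⟨hb, ?_⟩
      obtain ⟨hxe, hcl, _⟩ := F.clu _ _ hv0 hx
      unfold Ctx.sP
      rw [ho, if_pos rfl]
      unfold Ctx.ptN
      rw [hw, hy]
      rw [if_neg (fun h => hn ⟨h.1, h.2.1⟩), if_pos, if_pos (idn_FT_cl hcl hFT), hcl]
      refine ⟨hxe, ?_⟩
      by_cases hF : Fr X.K b.x b.y
      · right
        have := idn_deep F hb hF (fun h => hn ⟨hF, by rw [← hw]; exact h⟩)
        rwa [hw] at this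
      · exact Or.inl hF
    · refine ⟨hb, ?_⟩
      obtain ⟨hxe, hcl, _⟩ := F.clu _ _ hv0 hx
      unfold Ctx.sP
      rw [ho, if_neg (by simp)]
      unfold Ctx.ptN
      rw [hw, hy]
      by_cases hF : Fr X.K b.x b.y
      · have hfc := idn_fc2 hb hF
        have hnh : ¬ X.Hon b.x b.y w := fun h => hn ⟨hF, h⟩
        have hdp := idn_deep F hb hF (by rw [hw]; exact hnh)
        rw [hw] at hdp
        have hex := (idn_excl F hb hF).2
        rw [hw, hy] at hex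
        rw [if_neg (fun h => hnh ((F.honS _ _ hfc _).2 h.2.2)), if_neg, if_pos ⟨hxe, hdp⟩,
          if_pos (idn_FT_cl hcl hFT), hcl]
        rintro ⟨_, h7 | h7⟩
        · exact h7 hF.symm
        · exact hex h7
      · have hcly := idn_cleq F hb hxe hF
        rw [if_neg (fun h => hF h.1.symm), if_pos ⟨F.frell _ _ hxe hF, Or.inl (fun h => hF h.symm)⟩,
          if_pos (idn_FT_cl (hcly.trans hcl) hFT), hcly, hcl]

theorem idn_nodeS {X : Ctx G} (F : IdnF X) (v0 : X.V) (hv0 : ¬ EllV X.D X.K v0) (a a' d : X.U)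
    (had : a' ≠ d)
    (hcon : ∀ v ∈ cl X.D X.K v0, (X.P.N v a = a' ∧ X.P.M v a = d) ∨ (X.P.N v a = d ∧ X.P.M v a = a'))
    (hFT : FT X.D X.K v0 a a') :
    {b | b ∈ X.BN ∧ X.sS b = some (.inr (cl X.D X.K v0, a, a'))} =
      (idnEO X (cl X.D X.K v0) true a a' \ idnHn X a) ∪
        (idnEO X (cl X.D X.K v0) false a d \ idnHn X a) := by
  classical
  ext b
  constructor
  · rintro ⟨hb, hs⟩
    unfold Ctx.sS at hs
    by_cases ho : b.o = true
    · left
      rw [ho, if_pos rfl] at hs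
      unfold Ctx.segN at hs
      split_ifs at hs with h1 h2 h3 h4 h5
      · simp only [Option.some.injEq, reduceCtorEq] at hs
      · simp only [Option.some.injEq, Sum.inr.injEq, Prod.mk.injEq] at hs
        obtain ⟨e1, e2, e3⟩ := hs
        refine ⟨⟨hb, ?_, ho, e2, by rw [← e2]; exact e3⟩, ?_⟩
        · rw [← e1]; exact Relation.ReflTransGen.refl
        · rintro ⟨h6, h7⟩
          rw [← e2] at h7
          exact h1 ⟨h6, h7⟩
      · exfalso
        obtain ⟨h6, h7⟩ := h4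
        by_cases hF : Fr X.K b.x b.y
        · exact (idn_excl F hb hF).1 h7
        · exact h2 ⟨F.frell _ _ h6 (fun h => hF h.symm), Or.inl hF⟩
    · right
      rw [Bool.not_eq_true] at ho
      rw [ho, if_neg (by simp)] at hs
      unfold Ctx.segN at hs
      split_ifs at hs with h1 h2 h3 h4 h5
      · simp only [Option.some.injEq, reduceCtorEq] at hs
      · simp only [Option.some.injEq, Sum.inr.injEq, Prod.mk.injEq] at hs
        obtain ⟨e1, e2, e3⟩ := hs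
        by_cases hF : Fr X.K b.x b.y
        · exfalso
          rcases h2.2 with h6 | h6
          · exact h6 hF.symm
          · exact (idn_excl F hb hF).1 h6
        · have hx : ¬ EllV X.D X.K b.x := F.frell _ _ h2.1 (fun h => hF h.symm)
          have hxC : b.x ∈ cl X.D X.K v0 := by
            rw [← e1, idn_cleq F hb hx hF]
            exact Relation.ReflTransGen.refl
          refine ⟨⟨hb, hxC, ho, e2, ?_⟩, fun h => hF h.1⟩
          rw [F.tfM _ _ hx (idn_tf F hb hx hF).1]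
          rw [e2] at e3
          rcases hcon _ hxC with ⟨h6, h7⟩ | ⟨h6, h7⟩
          · exact h7
          · exact absurd (e3.symm.trans h6) had
      · simp only [Option.some.injEq, Sum.inr.injEq, Prod.mk.injEq] at hs
        obtain ⟨e1, e2, e3⟩ := hs
        have hxC : b.x ∈ cl X.D X.K v0 := by
          rw [← e1]; exact Relation.ReflTransGen.refl
        rw [e2] at e3
        by_cases hF : Fr X.K b.x b.y
        · refine ⟨⟨hb, hxC, ho, e2, ?_⟩, ?_⟩
          · have h8 := (F.dpM _ _ (idn_fc2 hb hF) _ h4.2).2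
            rw [e2] at h8
            rw [h8]
            rcases hcon _ hxC with ⟨h6, h7⟩ | ⟨h6, h7⟩
            · exact h7
            · exact absurd (e3.symm.trans h6) had
          · rintro ⟨h6, h7⟩
            rw [← e2] at h7
            exact F.honD _ _ (idn_fc2 hb h6) _ h7 h4.2
        · exact absurd ⟨F.frell _ _ h4.1 hF, Or.inl (fun h => hF h.symm)⟩ h2
  · rintro (⟨⟨hb, hx, ho, hw, hy⟩, hn⟩ | ⟨⟨hb, hx, ho, hw, hy⟩, hn⟩)
    · refine ⟨hb, ?_⟩
      obtain ⟨hxe, hcl, _⟩ := F.clu _ _ hv0 hx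
      unfold Ctx.sS
      rw [ho, if_pos rfl]
      unfold Ctx.segN
      rw [hw, hy]
      rw [if_neg (fun h => hn ⟨h.1, h.2⟩), if_pos, if_pos (idn_FT_cl hcl hFT), hcl]
      refine ⟨hxe, ?_⟩
      by_cases hF : Fr X.K b.x b.y
      · right
        have := idn_deep F hb hF (fun h => hn ⟨hF, by rw [← hw]; exact h⟩)
        rwa [hw] at this
      · exact Or.inl hF
    · refine ⟨hb, ?_⟩
      obtain ⟨hxe, hcl, _⟩ := F.clu _ _ hv0 hx
      have hNx : X.P.N b.x a = a' := by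
        have h4 : X.P.N b.x b.w ≠ X.P.N b.y b.w := hb.2.2.2.1
        rw [hw, hy] at h4
        rcases hcon _ hx with ⟨h6, h7⟩ | ⟨h6, h7⟩
        · exact h6
        · exact absurd h6 h4
      unfold Ctx.sS
      rw [ho, if_neg (by simp)]
      unfold Ctx.segN
      rw [hw, hNx]
      by_cases hF : Fr X.K b.x b.y
      · have hfc := idn_fc2 hb hF
        have hnh : ¬ X.Hon b.x b.y a := fun h => hn ⟨hF, h⟩
        have hdp := idn_deep F hb hF (by rw [hw]; exact hnh)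
        rw [hw] at hdp
        have hex := (idn_excl F hb hF).1
        rw [hw] at hex
        rw [if_neg (fun h => hnh ((F.honS _ _ hfc _).2 h.2)), if_neg, if_pos ⟨hxe, hdp⟩,
          if_pos (idn_FT_cl hcl hFT), hcl]
        rintro ⟨_, h7 | h7⟩
        · exact h7 hF.symm
        · exact hex h7
      · have hcly := idn_cleq F hb hxe hF
        rw [if_neg (fun h => hF h.1.symm), if_pos ⟨F.frell _ _ hxe hF, Or.inl (fun h => hF h.symm)⟩,
          if_pos (idn_FT_cl (hcly.trans hcl) hFT), hcly, hcl]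

/-! ### finiteness and symmetry -/

theorem idn_band_x {X : Ctx G} (g : G) (b : Band G X) : (g • b).x = g • b.x := rfl
theorem idn_band_y {X : Ctx G} (g : G) (b : Band G X) : (g • b).y = g • b.y := rfl
theorem idn_band_z {X : Ctx G} (g : G) (b : Band G X) : (g • b).z = g • b.z := rfl
theorem idn_band_w {X : Ctx G} (g : G) (b : Band G X) : (g • b).w = g • b.w := rfl

theorem idn_gC {X : Ctx G} (F : IdnF X) (v0 : X.V) (hv0 : ¬ EllV X.D X.K v0) (g : G) (v : X.V)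
    (h1 : v ∈ cl X.D X.K v0) (h2 : g • v ∈ cl X.D X.K v0) :
    g • cl X.D X.K v0 = cl X.D X.K v0 := by
  have h3 := F.clu _ _ hv0 h1
  have h4 := F.clu _ _ hv0 h2
  have h5 := F.clS v h3.1 g
  rw [h3.2.1, h4.2.1] at h5
  exact h5

theorem idn_EOfin {X : Ctx G} (F : IdnF X) (v0 : X.V) (hv0 : ¬ EllV X.D X.K v0) (o : Bool)
    (a c : X.U) (hFT : FT X.D X.K v0 a c) : (idnEO X (cl X.D X.K v0) o a c).Finite := by
  apply idn_fin X F.fin _ (fun b hb => hb.1)
  rintro g b ⟨hb, hx, ho, hw, hy⟩ ⟨hb', hx', ho', hw', hy'⟩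
  rw [idn_band_w, hw] at hw'
  rw [idn_band_y] at hy'
  apply hFT g (idn_gC F v0 hv0 g b.x hx hx') hw'
  have h := X.P.eN g b.y a
  rw [hw', hy, hy'] at h
  exact h.symm

theorem idn_EOsw {X : Ctx G} (C : Set X.V) (o : Bool) (a c : X.U) (b : Band G X)
    (h : b ∈ idnEO X C o a c) : idnSw b ∈ idnEO X C o a c := by
  obtain ⟨hb, hx, ho, hw, hy⟩ := h
  refine ⟨idn_sw_mem b hb, hx, ho, hw, ?_⟩
  have h2 := hb.2.1
  rw [hw] at h2
  show X.P.N b.z a = c
  rw [← h2, hy]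

/-- the antisymmetric sum over all sides -/
theorem idn_EOanti {X : Ctx G} (F : IdnF X) (v0 : X.V) (hv0 : ¬ EllV X.D X.K v0) (o : Bool)
    (a c : X.U) (hFT : FT X.D X.K v0 a c) (f : Band G X → ℝ) :
    ∑ᶠ b ∈ idnEO X (cl X.D X.K v0) o a c \ idnHn X a, idnAs f b =
      - ∑ᶠ b ∈ idnEO X (cl X.D X.K v0) o a c ∩ idnHn X a, idnAs f b := by
  have hfin := idn_EOfin F v0 hv0 o a c hFT
  have h1 := idn_anti _ hfin idnSw (fun x => idn_sw_sw x) (fun x hx => idn_EOsw _ _ _ _ x hx)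
    (idnAs f) (fun x _ => idn_as_sw f x)
  have h2 := idn_split _ hfin (idnHn X a) (idnAs f)
  linarith

def idnGa (X : Ctx G) (C : Set X.V) (o : Bool) (a c : X.U) : Set (Band G X) :=
  {b | b ∈ X.BN ∧ b.x ∈ C ∧ b.o = o ∧ b.w = c ∧ X.P.N b.x c = a ∧ Fr X.K b.x b.y ∧ X.Hon b.x b.y c}

theorem idn_Gafin {X : Ctx G} (F : IdnF X) (v0 : X.V) (hv0 : ¬ EllV X.D X.K v0) (o : Bool)
    (a c : X.U) (hFT : FT X.D X.K v0 a c) : (idnGa X (cl X.D X.K v0) o a c).Finite := by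
  apply idn_fin X F.fin _ (fun b hb => hb.1)
  rintro g b ⟨hb, hx, ho, hw, hN, _⟩ ⟨hb', hx', ho', hw', hN', _⟩
  rw [idn_band_w, hw] at hw'
  rw [idn_band_x] at hN'
  refine hFT g (idn_gC F v0 hv0 g b.x hx hx') ?_ hw'
  have h := X.P.eN g b.x c
  rw [hw', hN, hN'] at h
  exact h.symm

/-- one side of a K-dart at a vertex -/
def idnSd (X : Ctx G) (x y : X.V) (a : X.U) (o : Bool) : Set (Band G X) :=
  {b | b ∈ X.BN ∧ b.x = x ∧ b.y = y ∧ b.w = a ∧ b.o = o}

theorem idn_Sdfin {X : Ctx G} (F : IdnF X) (x y : X.V) (a : X.U) (o : Bool) (hF : Fr X.K x y) :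
    (idnSd X x y a o).Finite := by
  apply idn_fin X F.fin _ (fun b hb => hb.1)
  rintro g b ⟨hb, hx, hy, _⟩ ⟨hb', hx', hy', _⟩
  rw [idn_band_x, hx] at hx'
  rw [idn_band_y, hy] at hy'
  exact hF g hx' hy'

theorem idn_nodeSh {X : Ctx G} (x y : X.V) (hfc : X.FC2 x y) (a : X.U)
    (hh : X.Hon x y a) :
    {b | b ∈ X.BN ∧ X.sS b = some (.inl (x, y, a))} = idnSd X x y a true ∪ idnSd X y x a false := by
  classical
  ext b
  constructor
  · rintro ⟨hb, hs⟩
    unfold Ctx.sS at hs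
    by_cases ho : b.o = true
    · left
      rw [ho, if_pos rfl] at hs
      unfold Ctx.segN at hs
      split_ifs at hs with h1 h2 h3 h4 h5
      · simp only [Option.some.injEq, Sum.inl.injEq, Prod.mk.injEq] at hs
        exact ⟨hb, hs.1, hs.2.1, hs.2.2, ho⟩
      · simp only [Option.some.injEq, reduceCtorEq] at hs
      · simp only [Option.some.injEq, reduceCtorEq] at hs
    · right
      rw [Bool.not_eq_true] at ho
      rw [ho, if_neg (by simp)] at hs
      unfold Ctx.segN at hs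
      split_ifs at hs with h1 h2 h3 h4 h5
      · simp only [Option.some.injEq, Sum.inl.injEq, Prod.mk.injEq] at hs
        exact ⟨hb, hs.2.1, hs.1, hs.2.2, ho⟩
      · simp only [Option.some.injEq, reduceCtorEq] at hs
      · simp only [Option.some.injEq, reduceCtorEq] at hs
  · rintro (⟨hb, hx, hy, hw, ho⟩ | ⟨hb, hx, hy, hw, ho⟩)
    · refine ⟨hb, ?_⟩
      unfold Ctx.sS
      rw [ho, if_pos rfl]
      unfold Ctx.segN
      rw [hx, hy, hw, if_pos ⟨hfc.2.1, hh⟩]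
    · refine ⟨hb, ?_⟩
      unfold Ctx.sS
      rw [ho, if_neg (by simp)]
      unfold Ctx.segN
      rw [hx, hy, hw, if_pos ⟨hfc.2.1, hh⟩]

theorem idn_nodePh {X : Ctx G} (x y : X.V) (hfc : X.FC2 x y) (u w : X.U)
    (hc : Cross X.P x y u w) (hu : X.Hon x y u) (hw' : X.Hon x y w) :
    {b | b ∈ X.BN ∧ X.sP b = some (.inl (x, y, u, w))} =
      idnSd X x y u true ∪ idnSd X y x w false := by
  classical
  ext b
  constructor
  · rintro ⟨hb, hs⟩
    unfold Ctx.sP at hs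
    by_cases ho : b.o = true
    · left
      rw [ho, if_pos rfl] at hs
      unfold Ctx.ptN at hs
      split_ifs at hs with h1 h2 h3 h4 h5
      · simp only [Option.some.injEq, Sum.inl.injEq, Prod.mk.injEq] at hs
        exact ⟨hb, hs.1, hs.2.1, hs.2.2.1, ho⟩
      · simp only [Option.some.injEq, reduceCtorEq] at hs
      · simp only [Option.some.injEq, reduceCtorEq] at hs
    · right
      rw [Bool.not_eq_true] at ho
      rw [ho, if_neg (by simp)] at hs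
      unfold Ctx.ptN at hs
      split_ifs at hs with h1 h2 h3 h4 h5
      · simp only [Option.some.injEq, Sum.inl.injEq, Prod.mk.injEq] at hs
        exact ⟨hb, hs.2.1, hs.1, hs.2.2.2, ho⟩
      · simp only [Option.some.injEq, reduceCtorEq] at hs
      · simp only [Option.some.injEq, reduceCtorEq] at hs
  · rintro (⟨hb, hx, hy, hw, ho⟩ | ⟨hb, hx, hy, hw, ho⟩)
    · refine ⟨hb, ?_⟩
      unfold Ctx.sP
      rw [ho, if_pos rfl]
      unfold Ctx.ptN
      rw [hx, hy, hw, hc.2.2, if_pos ⟨hfc.2.1, hu, hw'⟩]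
    · refine ⟨hb, ?_⟩
      unfold Ctx.sP
      rw [ho, if_neg (by simp)]
      unfold Ctx.ptN
      rw [hx, hy, hw, hc.2.1, if_pos ⟨hfc.2.1, hu, hw'⟩]

/-- the sum over one side vanishes at the threshold -/
theorem idn_thr {X : Ctx G} (F : IdnF X) (f : Band G X → ℝ)
    (hz : ∀ n ∈ X.NSs, divR X.BN X.sS X.tS f n = 0) (v y : X.V) (hv : ¬ EllV X.D X.K v)
    (hfc : X.FC2 v y) (c : X.U) (hc : X.P.N v c ≠ c) (hon : OnI (X.P.N v) (X.P.N y) c)
    (hh : X.Hon v y c) (hn : ¬ X.Hon v y (X.P.N v c)) (o : Bool) :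
    ∑ᶠ b ∈ idnSd X v y c o, idnAs f b = 0 := by
  have hfc' : X.FC2 y v := ⟨X.K.symm _ _ hfc.1, hfc.2.1.symm, hfc.2.2.symm⟩
  have hcQ : c = X.Q.Q v y := by
    by_contra hne
    exact hn ((F.honS _ _ hfc' _).1 (F.honN _ _ hfc' c ((F.honS _ _ hfc _).1 hh) hc hne))
  have hemp : ∀ o', idnSd X y v c o' = ∅ := by
    intro o'
    ext b
    constructor
    · rintro ⟨hb, hx, hy, hw, _⟩
      exfalso
      obtain ⟨h1, h2, h3, h4, h5⟩ := hb
      rw [hx, hy] at h1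
      rw [hx, hy, hw] at h4
      rw [hy, hw] at h2
      have h6 := (X.good.T1 v y b.z hv (X.K.tri_swap _ _ _ h1) hfc.2.1 hfc.2.2).1
      rw [← hcQ, ← h2] at h6
      exact h4 h6
    · intro h
      exact absurd h (Set.notMem_empty _)
  have hon' : OnI (X.P.N y) (X.P.N v) c := by
    intro h
    rw [h]
    exact hon h.symm
  cases o with
  | true =>
    have hmem : (.inl (v, y, c) : X.NS) ∈ X.NSs := ⟨hfc, hon, hh⟩
    have h1 := hz _ hmem
    have hset := idn_nodeSh v y hfc c hh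
    rw [hemp false, Set.union_empty] at hset
    rw [idn_div X.sS X.tS f _ (fun b _ => rfl) (by
      rw [hset]; exact idn_Sdfin F v y c true hfc.2.1), hset] at h1
    exact h1
  | false =>
    have hh' : X.Hon y v c := (F.honS _ _ hfc _).1 hh
    have hmem : (.inl (y, v, c) : X.NS) ∈ X.NSs := ⟨hfc', hon', hh'⟩
    have h1 := hz _ hmem
    have hset := idn_nodeSh y v hfc' c hh'
    rw [hemp true, Set.empty_union] at hset
    rw [idn_div X.sS X.tS f _ (fun b _ => rfl) (by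
      rw [hset]; exact idn_Sdfin F v y c false hfc.2.1), hset] at h1
    exact h1

theorem idn_in_inj {X : Ctx G} (a : X.U) (b b' : Band G X) (hw : b.w = a) (hw' : b'.w = a)
    (h : idnIn b = idnIn b') : b = b' := by
  obtain ⟨x, y, z, w, o⟩ := b
  obtain ⟨x', y', z', w', o'⟩ := b'
  unfold idnIn at h
  simp only [Ctx.Band.mk.injEq] at h hw hw' ⊢
  exact ⟨h.1, h.2.1, h.2.2.1, hw.trans hw'.symm, h.2.2.2.2⟩

/-- the inner sums agree -/
theorem idn_K {X : Ctx G} (F : IdnF X) (f : Band G X → ℝ) (hf : ∀ y ∉ X.BN, f y = 0)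
    (hz : ∀ n ∈ X.NSs, divR X.BN X.sS X.tS f n = 0) (v0 : X.V) (hv0 : ¬ EllV X.D X.K v0)
    (o : Bool) (a c d : X.U) (hadj : X.D.T.Adj a c) (had : a ≠ d)
    (hcon : ∀ v ∈ cl X.D X.K v0, (X.P.N v c = a ∧ X.P.M v c = d) ∨ (X.P.N v c = d ∧ X.P.M v c = a))
    (hFT : FT X.D X.K v0 a c) :
    ∑ᶠ b ∈ idnEO X (cl X.D X.K v0) o a c ∩ idnHn X a, idnAs f (idnIn b) =
      ∑ᶠ b ∈ idnEO X (cl X.D X.K v0) o c d ∩ idnHn X c, idnAs f b := by
  have hac : a ≠ c := hadj.ne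
  have hGfin := idn_Gafin F v0 hv0 o a c hFT
  -- K1
  have K1 : ∑ᶠ b ∈ idnEO X (cl X.D X.K v0) o a c ∩ idnHn X a, idnAs f (idnIn b) =
      ∑ᶠ b ∈ idnGa X (cl X.D X.K v0) o a c ∩ {b | X.Hon b.x b.y a}, idnAs f b := by
    refine idn_shift _ _ idnIn ?_ (idnAs f) ?_ ?_
    · intro b hb b' hb' h
      exact idn_in_inj a b b' hb.1.2.2.2.1 hb'.1.2.2.2.1 h
    · rintro b ⟨⟨hb, hx, ho, hw, hy⟩, hF, hh⟩ hne
      have hin : idnIn b ∈ X.BN := by
        by_contra hc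
        exact hne (idn_as_supp f hf _ hc)
      have hN : X.P.N b.x c = a := by
        rw [idn_fl X b.x hadj.symm]
        have h4 := hb.2.2.2.1
        rw [hw, hy] at h4
        exact h4
      have hL := idn_honL F hb hF (by rw [hw]; exact hh)
      rw [hw, hy] at hL
      refine ⟨⟨hin, hx, ho, ?_, hN, hF, hL⟩, hh⟩
      show X.P.N b.y b.w = c
      rw [hw, hy]
    · rintro b ⟨⟨hb, hx, ho, hw, hN, hF, hh⟩, hha⟩ _
      have h1 := idn_out hb a (by rw [hw]; exact hN) (by rw [hw]; exact hac) (Or.inl ⟨hF, hha⟩)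
      refine ⟨⟨b.x, b.y, b.z, a, b.o⟩, ⟨⟨h1.1, hx, ho, rfl, ?_⟩, hF, hha⟩, ?_⟩
      · show X.P.N b.y a = c
        rw [h1.2, hw]
      · unfold idnIn
        simp only
        rw [h1.2]
  -- K2
  have K2 : ∑ᶠ b ∈ idnGa X (cl X.D X.K v0) o a c \ {b | X.Hon b.x b.y a}, idnAs f b = 0 := by
    apply idn_fib _ (hGfin.subset Set.sdiff_subset) (fun b => (b.x, b.y))
    rintro i ⟨⟨hb, hx, ho, hw, hN, hF, hh⟩, hna⟩
    have hset : (idnGa X (cl X.D X.K v0) o a c \ {b | X.Hon b.x b.y a}) ∩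
        {j | (fun b : Band G X => (b.x, b.y)) j = (fun b : Band G X => (b.x, b.y)) i} =
        idnSd X i.x i.y c o := by
      ext j
      constructor
      · rintro ⟨⟨⟨hbj, hxj, hoj, hwj, hNj, hFj, hhj⟩, hnj⟩, hk⟩
        have hk' : (j.x, j.y) = (i.x, i.y) := hk
        simp only [Prod.mk.injEq] at hk'
        exact ⟨hbj, hk'.1, hk'.2, hwj, hoj⟩
      · rintro ⟨hbj, hxj, hyj, hwj, hoj⟩
        refine ⟨⟨⟨hbj, by rw [hxj]; exact hx, hoj, hwj, by rw [hxj]; exact hN,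
          by rw [hxj, hyj]; exact hF, by rw [hxj, hyj]; exact hh⟩, ?_⟩, ?_⟩
        · show ¬ X.Hon j.x j.y a
          rw [hxj, hyj]; exact hna
        · show (j.x, j.y) = (i.x, i.y)
          rw [hxj, hyj]
    rw [hset]
    have hv := (F.clu _ _ hv0 hx).1
    have hon := idn_onI hb
    rw [hw] at hon
    exact idn_thr F f hz i.x i.y hv (idn_fc2 hb hF) c (by rw [hN]; exact hac) hon hh
      (by rw [hN]; exact hna) o
  -- K3
  have K3 : ∑ᶠ b ∈ idnGa X (cl X.D X.K v0) o a c \ {b | X.P.N b.y c = d}, idnAs f b = 0 := by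
    refine idn_anti _ (hGfin.subset Set.sdiff_subset) idnSw (fun x => idn_sw_sw x) ?_ _
      (fun x _ => idn_as_sw f x)
    rintro b ⟨⟨hb, hx, ho, hw, hN, hF, hh⟩, hnd⟩
    have hv := (F.clu _ _ hv0 hx).1
    have hsw := idn_sw_mem b hb
    have hyz : X.P.N b.y c = X.P.N b.z c := by
      have := hb.2.1
      rwa [hw] at this
    have hnd' : X.P.N b.z c ≠ d := by
      rw [← hyz]; exact hnd
    have hM : X.P.M b.x c = d := by
      rcases hcon _ hx with h | h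
      · exact h.2
      · exact absurd (hN.symm.trans h.1) had
    have hF' : Fr X.K b.x b.z := by
      by_contra hc
      have htf := (idn_tf F hsw hv hc).1
      have := F.tfM _ _ hv htf
      apply hnd'
      rw [← hM, ← this]
      rfl
    have hh' : X.Hon b.x b.z c := by
      by_contra hc
      have hdp := idn_deep F hsw hF' (by
        show ¬ X.Hon b.x b.z b.w
        rw [hw]; exact hc)
      have hdp' : X.Dp b.x b.z c := by
        have h' : X.Dp b.x b.z b.w := hdp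
        rwa [hw] at h'
      have := (F.dpM _ _ (idn_fc2 hsw hF') c hdp').2
      apply hnd'
      rw [← hM]
      exact this
    exact ⟨⟨hsw, hx, ho, hw, hN, hF', hh'⟩, hnd'⟩
  -- K4
  have K4 : idnGa X (cl X.D X.K v0) o a c ∩ {b | X.P.N b.y c = d} =
      idnEO X (cl X.D X.K v0) o c d ∩ idnHn X c := by
    ext b
    constructor
    · rintro ⟨⟨hb, hx, ho, hw, hN, hF, hh⟩, hd⟩
      exact ⟨⟨hb, hx, ho, hw, hd⟩, hF, hh⟩
    · rintro ⟨⟨hb, hx, ho, hw, hy⟩, hF, hh⟩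
      refine ⟨⟨hb, hx, ho, hw, ?_, hF, hh⟩, hy⟩
      have h4 := hb.2.2.2.1
      rw [hw, hy] at h4
      rcases hcon _ hx with h | h
      · exact h.1
      · exact absurd h.1 h4
  have h1 := idn_split _ hGfin {b | X.Hon b.x b.y a} (idnAs f)
  have h2 := idn_split _ hGfin {b | X.P.N b.y c = d} (idnAs f)
  rw [K1, ← K4]
  linarith

/-- one side, moved inwards -/
theorem idn_side {X : Ctx G} (f : Band G X → ℝ) (hf : ∀ y ∉ X.BN, f y = 0)
    (x y : X.V) (hfc : X.FC2 x y) (u w : X.U)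
    (hc : Cross X.P x y u w) (hu : X.Hon x y u) (o : Bool) :
    ∑ᶠ b ∈ idnSd X x y u o, idnAs f (idnIn b) = ∑ᶠ b ∈ idnSd X x y w o, idnAs f b := by
  refine idn_shift _ _ idnIn ?_ (idnAs f) ?_ ?_
  · intro b hb b' hb' h
    exact idn_in_inj u b b' hb.2.2.2.1 hb'.2.2.2.1 h
  · rintro b ⟨hb, hx, hy, hw, ho⟩ hne
    have hin : idnIn b ∈ X.BN := by
      by_contra hc
      exact hne (idn_as_supp f hf _ hc)
    refine ⟨hin, hx, hy, ?_, ho⟩
    show X.P.N b.y b.w = w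
    rw [hy, hw, hc.2.2]
  · rintro b ⟨hb, hx, hy, hw, ho⟩ _
    have h1 := idn_out hb u (by rw [hx, hw]; exact hc.2.1) (by rw [hw]; exact hc.1.ne)
      (Or.inl ⟨by rw [hx, hy]; exact hfc.2.1, by rw [hx, hy]; exact hu⟩)
    refine ⟨⟨b.x, b.y, b.z, u, b.o⟩, ⟨h1.1, hx, hy, rfl, ho⟩, ?_⟩
    unfold idnIn
    simp only
    rw [h1.2]

/-- sums of `idnAs (del f)` over a set of bands at the same location -/
theorem idn_sum_del {X : Ctx G} (f : Band G X → ℝ) (hf : ∀ y ∉ X.BN, f y = 0)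
    (S : Set (Band G X)) (hS : S.Finite) (hSB : S ⊆ X.BN) (r : ℝ)
    (hr : ∀ b ∈ S, idnSg X b.w (X.P.N b.y b.w) = r) :
    ∑ᶠ b ∈ S, idnAs (X.del f) b =
      r * ((∑ᶠ b ∈ S, idnAs f b) - ∑ᶠ b ∈ S, idnAs f (idnIn b)) := by
  rw [← finsum_mem_sub_distrib _ _ hS, mul_finsum_mem]
  refine finsum_mem_congr rfl fun b hb => ?_
  rw [idn_as_del f hf b (hSB hb), hr b hb]

/-- the axis continues -/
theorem idn_ax {X : Ctx G} (F : IdnF X) (v0 : X.V) (hv0 : ¬ EllV X.D X.K v0) (u w : X.U)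
    (hA : Ax2 X.P v0 u w) : X.D.T.Adj u w ∧ ∃ d, u ≠ d ∧ Ax2 X.P v0 w d ∧
      ∀ v ∈ cl X.D X.K v0, (X.P.N v w = u ∧ X.P.M v w = d) ∨ (X.P.N v w = d ∧ X.P.M v w = u) := by
  have hN := (X.P.hyp v0 hv0).1
  have hM := (X.P.hyp v0 hv0).2.1
  rcases hA with ⟨h1, h2, h3⟩ | ⟨h1, h2, h3⟩
  · have hadj : X.D.T.Adj u w := by
      have := idn_adjN X v0 u h3
      rwa [h1] at this
    have hne : u ≠ X.P.N v0 w := fun h => (idn_fl X v0 hadj).1 h1 h.symm
    have hadj2 := idn_adjN X v0 w (hN w)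
    refine ⟨hadj, X.P.N v0 w, hne, Or.inl ⟨rfl, ?_, hN w⟩, ?_⟩
    · rw [idn_flM X v0 hadj2.symm, h2]
      exact hne
    · intro v hv
      rcases (F.clu _ _ hv0 hv).2.2 with ⟨e1, e2⟩ | ⟨e1, e2⟩
      · right
        rw [e1, e2]
        exact ⟨rfl, h2⟩
      · left
        rw [e1, e2]
        exact ⟨h2, rfl⟩
  · have hadj : X.D.T.Adj w u := by
      have := idn_adjN X v0 w h3
      rwa [h1] at this
    have hne : u ≠ X.P.M v0 w := fun h => (idn_flM X v0 hadj.symm).1 h2 h.symm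
    have hadj2 := idn_adjM X v0 w (hM w)
    have hNd : X.P.N v0 (X.P.M v0 w) = w := by
      rw [idn_fl X v0 hadj2.symm, h1]
      exact hne
    refine ⟨hadj.symm, X.P.M v0 w, hne, Or.inr ⟨hNd, rfl, ?_⟩, ?_⟩
    · rw [hNd]
      exact (hM w).symm
    · intro v hv
      rcases (F.clu _ _ hv0 hv).2.2 with ⟨e1, e2⟩ | ⟨e1, e2⟩
      · left
        rw [e1, e2]
        exact ⟨h1, rfl⟩
      · right
        rw [e1, e2]
        exact ⟨rfl, h1⟩

theorem idn_tP {X : Ctx G} (b : Band G X) (hb : b ∈ X.BN) : X.tP b = X.sP (idnSw b) := by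
  have h2 := hb.2.1
  show (if b.o then X.ptN b.x b.z b.w (X.P.N b.y b.w) else X.ptN b.z b.x (X.P.N b.y b.w) b.w) =
    (if b.o then X.ptN b.x b.z b.w (X.P.N b.z b.w) else X.ptN b.z b.x (X.P.N b.z b.w) b.w)
  rw [h2]

theorem idn_disj {X : Ctx G} (S T : Set (Band G X)) (hS : ∀ b ∈ S, b.o = true)
    (hT : ∀ b ∈ T, b.o = false) : Disjoint S T := by
  rw [Set.disjoint_left]
  intro b h1 h2
  have := (hS b h1).symm.trans (hT b h2)
  exact Bool.noConfusion this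

theorem st_IDN (hC : ST_CLU) (hH : ST_HON) (hT : ST_TFD) (hG : ST_GRS) : ST_IDN := by
  intro G _ X f hf hz n hn
  have F := idn_facts hC hH hT hG X
  match n, hn with
  | .inl (x, y, u, w), hn =>
    obtain ⟨hfc, hcr, hu, hw⟩ := hn
    have hfc' : X.FC2 y x := ⟨X.K.symm _ _ hfc.1, hfc.2.1.symm, hfc.2.2.symm⟩
    have hcr' : Cross X.P y x w u := ⟨hcr.1.symm, hcr.2.2, hcr.2.1⟩
    have hw' : X.Hon y x w := (F.honS _ _ hfc _).1 hw
    have hset := idn_nodePh x y hfc u w hcr hu hw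
    have hf1 := idn_Sdfin F x y u true hfc.2.1
    have hf2 := idn_Sdfin F y x w false hfc'.2.1
    have hf3 := idn_Sdfin F x y w true hfc.2.1
    have hf4 := idn_Sdfin F y x u false hfc'.2.1
    have hd : ∀ (a b : X.U), Disjoint (idnSd X x y a true) (idnSd X y x b false) := fun a b =>
      idn_disj _ _ (fun b hb => hb.2.2.2.2) (fun b hb => hb.2.2.2.2)
    rw [idn_div X.sP X.tP (X.del f) _ idn_tP (by rw [hset]; exact hf1.union hf2), hset,
      finsum_mem_union (hd u w) hf1 hf2]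
    rw [idn_sum_del f hf _ hf1 (fun b hb => hb.1) (idnSg X u w) (by
        rintro b ⟨hb, hx, hy, hw1, _⟩
        rw [hy, hw1, hcr.2.2]),
      idn_sum_del f hf _ hf2 (fun b hb => hb.1) (idnSg X w u) (by
        rintro b ⟨hb, hx, hy, hw1, _⟩
        rw [hy, hw1, hcr.2.1]),
      idn_sg_symm X u w hcr.1, idn_side f hf x y hfc u w hcr hu true,
      idn_side f hf y x hfc' w u hcr' hw' false]
    have hon1 : OnI (X.P.N x) (X.P.N y) u := by
      intro h
      exact absurd (h.trans hcr.2.2) (fun h' => (idn_fl X x hcr.1).1 h' hcr.2.1)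
    have hon2 : OnI (X.P.N x) (X.P.N y) w := by
      intro h
      exact absurd (h.symm.trans hcr.2.1) (fun h' => (idn_fl X y hcr.1.symm).1 h' hcr.2.2)
    have hm1 : (.inl (x, y, u) : X.NS) ∈ X.NSs := ⟨hfc, hon1, hu⟩
    have hm2 : (.inl (x, y, w) : X.NS) ∈ X.NSs := ⟨hfc, hon2, hw⟩
    have e1 := hz _ hm1
    have e2 := hz _ hm2
    have hs1 := idn_nodeSh x y hfc u hu
    have hs2 := idn_nodeSh x y hfc w hw
    rw [idn_div X.sS X.tS f _ (fun b _ => rfl) (by rw [hs1]; exact hf1.union hf4), hs1,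
      finsum_mem_union (hd u u) hf1 hf4] at e1
    rw [idn_div X.sS X.tS f _ (fun b _ => rfl) (by rw [hs2]; exact hf3.union hf2), hs2,
      finsum_mem_union (hd w w) hf3 hf2] at e2
    linear_combination (idnSg X u w) * (e1 - e2)
  | .inr (C, u, w), hn =>
    obtain ⟨v0, hC0, hv0, hAx, hFT⟩ := hn
    subst hC0
    obtain ⟨hadj, d, hud, hAd, hcon⟩ := idn_ax F v0 hv0 u w hAx
    obtain ⟨_, d', hwd', _, hcon'⟩ := idn_ax F v0 hv0 w u hAx.symm
    have hFTd : FT X.D X.K v0 w d := F.ftT v0 hv0 u w w d hAx hAd hFT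
    have hFTs := idn_FT_sw hFT
    set C := cl X.D X.K v0 with hCdef
    have hset := idn_nodeP F v0 hv0 u w hFT
    have hf1 := idn_EOfin F v0 hv0 true u w hFT
    have hf2 := idn_EOfin F v0 hv0 false w u hFTs
    have hf3 := idn_EOfin F v0 hv0 true w d hFTd
    have hd : ∀ (a c a' c' r r' : X.U), Disjoint (idnEO X C true a c \ idnHn X r)
        (idnEO X C false a' c' \ idnHn X r') := fun a c a' c' r r' =>
      idn_disj _ _ (fun b hb => hb.1.2.2.1) (fun b hb => hb.1.2.2.1)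
    have g1 := hf1.subset (Set.sdiff_subset (t := idnHn X u))
    have g2 := hf2.subset (Set.sdiff_subset (t := idnHn X w))
    rw [idn_div X.sP X.tP (X.del f) _ idn_tP (by rw [hset]; exact g1.union g2), hset,
      finsum_mem_union (hd _ _ _ _ _ _) g1 g2, idn_EOanti F v0 hv0 true u w hFT,
      idn_EOanti F v0 hv0 false w u hFTs]
    rw [idn_sum_del f hf _ (hf1.subset Set.inter_subset_left) (fun b hb => hb.1.1) (idnSg X u w) (by
        rintro b ⟨⟨hb, hx, ho, hw1, hy⟩, _⟩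
        rw [hw1, hy]),
      idn_sum_del f hf _ (hf2.subset Set.inter_subset_left) (fun b hb => hb.1.1) (idnSg X w u) (by
        rintro b ⟨⟨hb, hx, ho, hw1, hy⟩, _⟩
        rw [hw1, hy]),
      idn_sg_symm X u w hadj, idn_K F f hf hz v0 hv0 true u w d hadj hud hcon hFT,
      idn_K F f hf hz v0 hv0 false w u d' hadj.symm hwd' hcon' hFTs]
    -- the segment nodes
    have hFTd' : FT X.D X.K v0 u d' := by
      obtain ⟨_, d'', _, hA'', hcon''⟩ := idn_ax F v0 hv0 w u hAx.symm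
      have hself : v0 ∈ cl X.D X.K v0 := Relation.ReflTransGen.refl
      have hdd : d'' = d' := by
        rcases hcon' v0 hself with h | h <;> rcases hcon'' v0 hself with h' | h'
        · exact h'.2.symm.trans h.2
        · have := h.1.symm.trans h'.1
          have h2 := h.2.symm.trans h'.2
          rw [← this, h2]
        · have := h.1.symm.trans h'.1
          have h2 := h.2.symm.trans h'.2
          rw [this, ← h2]
        · exact h'.1.symm.trans h.1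
      rw [← hdd]
      exact F.ftT v0 hv0 w u u d'' hAx.symm hA'' hFTs
    have hf4 := idn_EOfin F v0 hv0 false u d' hFTd'
    have g3 := hf3.subset (Set.sdiff_subset (t := idnHn X w))
    have g4 := hf4.subset (Set.sdiff_subset (t := idnHn X u))
    have hm1 : (.inr (C, u, w) : X.NS) ∈ X.NSs := ⟨v0, rfl, hv0, hAx, hFT⟩
    have hm2 : (.inr (C, w, d) : X.NS) ∈ X.NSs := ⟨v0, rfl, hv0, hAd, hFTd⟩
    have e1 := hz _ hm1
    have e2 := hz _ hm2
    have hs1 := idn_nodeS F v0 hv0 u w d' hwd' hcon' hFT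
    have hs2 := idn_nodeS F v0 hv0 w d u hud.symm (fun v hv => (hcon v hv).symm) hFTd
    rw [idn_div X.sS X.tS f _ (fun b _ => rfl) (by rw [hs1]; exact g1.union g4), hs1,
      finsum_mem_union (hd _ _ _ _ _ _) g1 g4, idn_EOanti F v0 hv0 true u w hFT,
      idn_EOanti F v0 hv0 false u d' hFTd'] at e1
    rw [idn_div X.sS X.tS f _ (fun b _ => rfl) (by rw [hs2]; exact g3.union g2), hs2,
      finsum_mem_union (hd _ _ _ _ _ _) g3 g2, idn_EOanti F v0 hv0 true w d hFTd,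
      idn_EOanti F v0 hv0 false w u hFTs] at e2
    linear_combination (idnSg X u w) * (e1 - e2)

end Pool.Agent.Helper93.HZ
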